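import Pool.Agent.Lib.MP_dc87a5_co.Colour

/-!
# The planar graphs of girth six
-/

namespace Pool.Agent.Lib.MP_dc87a5_co
namespace Six

/-- the two centres `b` (`false`) and `b'` (`true`), the vertices `p i = (i, false)` and
`q i = (i, true)`, the vertices `a (i, k)`, and `r` isolated vertices -/
abbrev W (s t r : ℕ) : Type := Bool ⊕ (Fin s × Bool) ⊕ (Fin s × Fin t) ⊕ Fin r

def LAdj (s t r : ℕ) : W s t r → W s t r → Prop
  | Sum.inl β, Sum.inr (Sum.inl x) => β = x.2
  | Sum.inr (Sum.inl x), Sum.inl β => β = x.2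
  | Sum.inr (Sum.inl x), Sum.inr (Sum.inr (Sum.inl y)) => x.2 = false ∧ x.1 = y.1
  | Sum.inr (Sum.inr (Sum.inl y)), Sum.inr (Sum.inl x) => x.2 = false ∧ x.1 = y.1
  | _, _ => False

/-- `b` is joined to all `p i`, `b'` to all `q i`, and `p i` to all `a (i, k)` -/
def light (s t r : ℕ) : SimpleGraph (W s t r) where
  Adj := LAdj s t r
  symm := by
    constructor
    rintro (a | a | a | a) (b | b | b | b) h <;> exact h
  loopless := by
    constructor
    rintro (a | a | a | a) h <;> exact h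

/-- the ends of the bundles: `p i` and `q i`, or `a (i, k)` and `q i` -/
def en (s t r : ℕ) : Fin s × Option (Fin t) → Bool → W s t r
  | (i, none), false => Sum.inr (Sum.inl (i, false))
  | (i, some k), false => Sum.inr (Sum.inr (Sum.inl (i, k)))
  | (i, _), true => Sum.inr (Sum.inl (i, true))

abbrev G (s t r m : ℕ) : SimpleGraph (EV (W s t r) (Fin s × Option (Fin t)) m) :=
  expand (light s t r) (en s t r) m

theorem en_ne (s t r : ℕ) (x : Fin s × Option (Fin t)) (β : Bool) :
    en s t r x β ≠ en s t r x (!β) := by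
  rcases x with ⟨i, _ | k⟩ <;> rcases β with _ | _ <;> simp [en]

def side {s t r : ℕ} : W s t r → Bool
  | Sum.inr (Sum.inl _) => true
  | _ => false

theorem side_ne {s t r : ℕ} {u v : W s t r} (h : (light s t r).Adj u v) : side u ≠ side v := by
  rcases u with a | a | a | a <;> rcases v with b | b | b | b <;>
    first | exact h.elim | exact Bool.noConfusion

theorem side_not {s t r : ℕ} {u v : W s t r} (h : (light s t r).Adj u v) :
    side v = !(side u) := by
  have := side_ne h
  cases hu : side u <;> cases hv : side v <;> simp_all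

theorem no3L (s t r : ℕ) : No3 (light s t r) := by
  intro a b c h1 h2 h3
  have e1 := side_not h1
  have e2 := side_not h2
  have e3 := side_not h3
  rw [e2, e1] at e3
  cases side a <;> simp at e3

theorem no5L (s t r : ℕ) : No5 (light s t r) := by
  intro a b c d e h1 h2 h3 h4 h5 _ _ _ _ _
  have e1 := side_not h1
  have e2 := side_not h2
  have e3 := side_not h3
  have e4 := side_not h4
  have e5 := side_not h5
  rw [e4, e3, e2, e1] at e5
  cases side a <;> simp at e5

theorem common {s t r : ℕ} {x y : Fin s × Bool} {z : W s t r} (hxy : x ≠ y)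
    (h1 : (light s t r).Adj (Sum.inr (Sum.inl x)) z)
    (h2 : (light s t r).Adj (Sum.inr (Sum.inl y)) z) : z = Sum.inl x.2 := by
  rcases z with z | z | z | z
  · have h3 : z = x.2 := h1
    rw [h3]
  · exact h1.elim
  · exfalso
    have h3 : x.2 = false ∧ x.1 = z.1 := h1
    have h4 : y.2 = false ∧ y.1 = z.1 := h2
    exact hxy (Prod.ext (h3.2.trans h4.2.symm) (h3.1.trans h4.1.symm))
  · exact h1.elim

theorem no4L (s t r : ℕ) : No4 (light s t r) := by
  have key : ∀ a b c d, side a = true → (light s t r).Adj a b → (light s t r).Adj b c →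
      (light s t r).Adj c d → (light s t r).Adj d a → a ≠ c → b ≠ d → False := by
    intro a b c d ha h1 h2 h3 h4 n1 n2
    have e1 := side_not h1
    have e2 := side_not h2
    have hc : side c = true := by
      rw [e2, e1, ha]
      rfl
    rcases a with a | a | a | a
    · exact Bool.noConfusion ha
    · rcases c with c | c | c | c
      · exact Bool.noConfusion hc
      · have hac : a ≠ c := fun h => n1 (by rw [h])
        have k1 := common hac h1 h2.symm
        have k2 := common hac h4.symm h3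
        exact n2 (k1.trans k2.symm)
      · exact Bool.noConfusion hc
      · exact Bool.noConfusion hc
    · exact Bool.noConfusion ha
    · exact Bool.noConfusion ha
  intro a b c d h1 h2 h3 h4 n1 n2
  rcases hs : side a with _ | _
  · have e1 := side_not h1
    rw [hs] at e1
    exact key b c d a e1 h2 h3 h4 h1 n2 n1.symm
  · exact key a b c d hs h1 h2 h3 h4 n1 n2

theorem no3 (s t r m : ℕ) : No3 (G s t r m) := no3_expand (no3L s t r) (en_ne s t r)

theorem not_adj (s t r : ℕ) (x : Fin s × Option (Fin t)) (β : Bool) :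
    ¬ (light s t r).Adj (en s t r x β) (en s t r x (!β)) := by
  rcases x with ⟨i, _ | k⟩ <;> rcases β with _ | _ <;> intro h
  · exact h
  · exact h
  · exact Bool.noConfusion h.1
  · exact Bool.noConfusion h.1

theorem no4 (s t r m : ℕ) : No4 (G s t r m) := no4_expand (no4L s t r) (not_adj s t r)

theorem no_common (s t r : ℕ) (x : Fin s × Option (Fin t)) (β : Bool) (z : W s t r)
    (h1 : (light s t r).Adj (en s t r x β) z) (h2 : (light s t r).Adj z (en s t r x (!β))) :
    False := by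
  have key : ∀ x : Fin s × Option (Fin t), (light s t r).Adj (en s t r x false) z →
      (light s t r).Adj z (en s t r x true) → False := by
    rintro ⟨i, _ | k⟩ h1 h2
    · rcases z with z | z | z | z
      · have h3 : z = false := h1
        have h4 : z = true := h2
        rw [h3] at h4
        exact Bool.noConfusion h4
      · exact h1
      · exact Bool.noConfusion h2.1
      · exact h1
    · rcases z with z | z | z | z
      · exact h1
      · exact h2
      · exact h1
      · exact h1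
  rcases β with _ | _
  · exact key x h1 h2
  · exact key x h2.symm h1.symm

theorem no5 (s t r m : ℕ) : No5 (G s t r m) :=
  no5_expand (no5L s t r) (en_ne s t r) (no_common s t r)

/-! planarity -/

def key (s t r m : ℕ) : EV (W s t r) (Fin s × Option (Fin t)) m → ℕ × ℕ × ℕ
  | Sum.inl (Sum.inl false) => (0, 0, 0)
  | Sum.inl (Sum.inl true) => (1 + s, 0, 0)
  | Sum.inl (Sum.inr (Sum.inl (i, false))) => (1 + i, 0, 0)
  | Sum.inl (Sum.inr (Sum.inl (i, true))) => (1 + i, 2 + t, 0)
  | Sum.inl (Sum.inr (Sum.inr (Sum.inl (i, k)))) => (1 + i, 2 + k, 0)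
  | Sum.inl (Sum.inr (Sum.inr (Sum.inr j))) => (2 + s, j, 0)
  | Sum.inr ((i, none), j, β) => (1 + i, 1, 2 * j + β.toNat)
  | Sum.inr ((i, some k), j, β) => (1 + i, 2 + k, 1 + 2 * j + β.toNat)

theorem key_inj (s t r m : ℕ) : Function.Injective (key s t r m) := by
  rintro (((_ | _) | ⟨i, (_ | _)⟩ | ⟨i, k⟩ | j) | ⟨⟨i, (_ | k)⟩, j, β⟩)
    (((_ | _) | ⟨i', (_ | _)⟩ | ⟨i', k'⟩ | j') | ⟨⟨i', (_ | k')⟩, j', β'⟩) h <;>
    simp only [key, Prod.mk.injEq] at h <;>
    (try have hi := i.2) <;> (try have hi' := i'.2) <;> (try have hk := k.2) <;>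
    (try have hk' := k'.2) <;>
    first
    | rfl
    | (exfalso; omega)
    | skip
  all_goals try (rw [show i = i' from Fin.ext (by omega)])
  all_goals try (rw [show k = k' from Fin.ext (by omega)])
  · rw [show j = j' from Fin.ext h.2.1]
  · have hb : β = β' := by
      cases β <;> cases β' <;> simp only [Bool.toNat_false, Bool.toNat_true] at h <;>
        first | rfl | (exfalso; omega)
    subst hb
    rw [show j = j' from Fin.ext (by omega)]
  · have hb : β = β' := by
      cases β <;> cases β' <;> simp only [Bool.toNat_false, Bool.toNat_true] at h <;>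
        first | rfl | (exfalso; omega)
    subst hb
    rw [show j = j' from Fin.ext (by omega)]

def Low (s t : ℕ) (a b : ℕ × ℕ × ℕ) : Prop :=
  (∃ i j, i < s ∧ a = (1 + i, 1, 2 * j + 1) ∧ b = (1 + i, 2 + t, 0)) ∨
  (∃ i k j, i < s ∧ k < t ∧ a = (1 + i, 2 + k, 1 + 2 * j + 1) ∧ b = (1 + i, 2 + t, 0)) ∨
  (∃ i, i < s ∧ a = (1 + i, 2 + t, 0) ∧ b = (1 + s, 0, 0))

def Up (a b : ℕ × ℕ × ℕ) : Prop :=
  (∃ i, a = (0, 0, 0) ∧ b = (1 + i, 0, 0)) ∨
  (∃ i k, a = (1 + i, 0, 0) ∧ b = (1 + i, 2 + k, 0)) ∨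
  (∃ i j, a = (1 + i, 0, 0) ∧ b = (1 + i, 1, 2 * j)) ∨
  (∃ i k j, a = (1 + i, 2 + k, 0) ∧ b = (1 + i, 2 + k, 1 + 2 * j)) ∨
  (∃ i l x, a = (1 + i, l, x) ∧ b = (1 + i, l, x + 1))

theorem planar (s t r m : ℕ) : Planar (G s t r m) := by
  refine planar_of_arcs (G s t r m) (key s t r m) (key_inj s t r m) (Low s t) Up ?_ ?_ ?_ ?_ ?_
  · rintro a b (⟨i, j, hi, rfl, rfl⟩ | ⟨i, k, j, hi, hk, rfl, rfl⟩ | ⟨i, hi, rfl, rfl⟩) <;>
      (unfold lt3; dsimp only; omega)
  · rintro a b (⟨i, rfl, rfl⟩ | ⟨i, k, rfl, rfl⟩ | ⟨i, j, rfl, rfl⟩ | ⟨i, k, j, rfl, rfl⟩ |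
      ⟨i, l, x, rfl, rfl⟩) <;>
      (unfold lt3; dsimp only; omega)
  · -- the edges
    have hlr : ∀ (a : W s t r) (x : Fin s × Option (Fin t)) (j : Fin m) (β : Bool),
        (G s t r m).Adj (Sum.inl a) (Sum.inr (x, j, β)) →
        Low s t (key s t r m (Sum.inl a)) (key s t r m (Sum.inr (x, j, β))) ∨
        Low s t (key s t r m (Sum.inr (x, j, β))) (key s t r m (Sum.inl a)) ∨
        Up (key s t r m (Sum.inl a)) (key s t r m (Sum.inr (x, j, β))) ∨
        Up (key s t r m (Sum.inr (x, j, β))) (key s t r m (Sum.inl a)) := by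
      intro a ⟨i, k⟩ j β h
      rw [ex_lr] at h
      subst h
      rcases β with _ | _
      · right; right; left
        rcases k with _ | k
        · exact Or.inr (Or.inr (Or.inl ⟨i, j, rfl, rfl⟩))
        · exact Or.inr (Or.inr (Or.inr (Or.inl ⟨i, k, j, rfl, rfl⟩)))
      · right; left
        rcases k with _ | k
        · exact Or.inl ⟨i, j, i.2, rfl, rfl⟩
        · exact Or.inr (Or.inl ⟨i, k, j, i.2, k.2, rfl, rfl⟩)
    have hll : ∀ a b : W s t r, (light s t r).Adj a b → side a = true →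
        Low s t (key s t r m (Sum.inl a)) (key s t r m (Sum.inl b)) ∨
        Low s t (key s t r m (Sum.inl b)) (key s t r m (Sum.inl a)) ∨
        Up (key s t r m (Sum.inl a)) (key s t r m (Sum.inl b)) ∨
        Up (key s t r m (Sum.inl b)) (key s t r m (Sum.inl a)) := by
      rintro ((_ | _) | ⟨i, (_ | _)⟩ | ⟨i, k⟩ | j) ((_ | _) | ⟨i', (_ | _)⟩ | ⟨i', k'⟩ | j') h hs <;>
        first
        | exact Bool.noConfusion hs
        | exact h.elim
        | exact Bool.noConfusion h
        | exact Bool.noConfusion h.1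
        | skip
      · right; right; right; left
        exact ⟨i, rfl, rfl⟩
      · obtain ⟨-, h2⟩ := h
        have h2' : i = i' := h2
        subst h2'
        right; right; left; right; left
        exact ⟨i, k', rfl, rfl⟩
      · left; right; right
        exact ⟨i, i.2, rfl, rfl⟩
    rintro (a | ⟨⟨i, k⟩, j, β⟩) (b | ⟨⟨i', k'⟩, j', β'⟩) h
    · rcases hs : side a with _ | _
      · have e1 := side_not (ex_ll.mp h)
        rw [hs] at e1
        have := hll b a (ex_ll.mp h).symm e1
        tauto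
      · exact hll a b (ex_ll.mp h) hs
    · exact hlr _ _ _ _ h
    · have := hlr _ _ _ _ h.symm
      tauto
    · obtain ⟨h1, h2, h3⟩ := ex_rr.mp h
      have h4 : i = i' := congrArg Prod.fst h1
      have h5 : k = k' := congrArg Prod.snd h1
      subst h4 h5 h2
      right; right
      rcases β with _ | _ <;> rcases β' with _ | _
      · exact absurd rfl h3
      · left; right; right; right; right
        rcases k with _ | k
        · exact ⟨i, 1, 2 * j, rfl, rfl⟩
        · exact ⟨i, 2 + k, 1 + 2 * j, rfl, rfl⟩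
      · right; right; right; right; right
        rcases k with _ | k
        · exact ⟨i, 1, 2 * j, rfl, rfl⟩
        · exact ⟨i, 2 + k, 1 + 2 * j, rfl, rfl⟩
      · exact absurd rfl h3
  · rintro a b a' b' (⟨i, j, hi, rfl, rfl⟩ | ⟨i, k, j, hi, hk, rfl, rfl⟩ | ⟨i, hi, rfl, rfl⟩)
      (⟨i', j', hi', rfl, rfl⟩ | ⟨i', k', j', hi', hk', rfl, rfl⟩ | ⟨i', hi', rfl, rfl⟩)
      h1 h2 h3 <;>
      (unfold lt3 at h1 h2 h3; dsimp only at h1 h2 h3; omega)
  · rintro a b a' b' (⟨i, rfl, rfl⟩ | ⟨i, k, rfl, rfl⟩ | ⟨i, j, rfl, rfl⟩ | ⟨i, k, j, rfl, rfl⟩ |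
      ⟨i, l, x, rfl, rfl⟩)
      (⟨i', rfl, rfl⟩ | ⟨i', k', rfl, rfl⟩ | ⟨i', j', rfl, rfl⟩ | ⟨i', k', j', rfl, rfl⟩ |
      ⟨i', l', x', rfl, rfl⟩) h1 h2 h3 <;>
      (unfold lt3 at h1 h2 h3; dsimp only at h1 h2 h3; omega)

/-- no `(2, c)`-colouring -/
theorem not_weak {s t r m c : ℕ} (hs : 2 * c < s) (ht : c < t) (hm : 2 * c < m)
    (f : EV (W s t r) (Fin s × Option (Fin t)) m → Fin 2 ⊕ Fin c) : ¬ Weak (G s t r m) c f := by
  intro h
  -- some `p i`, `q i` which are in no distance-2 class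
  have hgood : ∃ i : Fin s, ∀ β j, f (Sum.inl (Sum.inr (Sum.inl (i, β)))) ≠ Sum.inr j := by
    by_contra hcon
    push Not at hcon
    have := h.few2 (n := s) (fun β => Sum.inl (Sum.inl β))
      (fun β i => Sum.inl (Sum.inr (Sum.inl (i, β)))) (by
        intro β i i' hi
        have := Sum.inl_injective (Sum.inr_injective (Sum.inl_injective hi))
        exact congrArg Prod.fst this) (fun β i => rfl) hcon
    omega
  obtain ⟨i, hi⟩ := hgood
  have hgood2 : ∃ k : Fin t, ∀ j, f (Sum.inl (Sum.inr (Sum.inr (Sum.inl (i, k))))) ≠ Sum.inr j := by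
    by_contra hcon
    push Not at hcon
    have := h.few (n := t) (Sum.inl (Sum.inr (Sum.inl (i, false))))
      (fun k => Sum.inl (Sum.inr (Sum.inr (Sum.inl (i, k))))) (by
        intro k k' hk
        have := Sum.inl_injective (Sum.inr_injective (Sum.inr_injective (Sum.inl_injective hk)))
        exact congrArg Prod.snd this) (fun k => ⟨rfl, rfl⟩) hcon
    omega
  obtain ⟨k, hk⟩ := hgood2
  obtain ⟨p, hp⟩ : ∃ a : Fin 2, f (Sum.inl (Sum.inr (Sum.inl (i, false)))) = Sum.inl a := by
    rcases hx : f (Sum.inl (Sum.inr (Sum.inl (i, false)))) with a | a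
    · exact ⟨a, rfl⟩
    · exact absurd hx (hi false a)
  obtain ⟨q, hq⟩ : ∃ a : Fin 2, f (Sum.inl (Sum.inr (Sum.inl (i, true)))) = Sum.inl a := by
    rcases hx : f (Sum.inl (Sum.inr (Sum.inl (i, true)))) with a | a
    · exact ⟨a, rfl⟩
    · exact absurd hx (hi true a)
  obtain ⟨v, hv⟩ : ∃ a : Fin 2, f (Sum.inl (Sum.inr (Sum.inr (Sum.inl (i, k))))) = Sum.inl a := by
    rcases hx : f (Sum.inl (Sum.inr (Sum.inr (Sum.inl (i, k))))) with a | a
    · exact ⟨a, rfl⟩
    · exact absurd hx (hk a)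
  have h1 : p ≠ q := h.heavy hm (i, none) hp hq
  have h2 : v ≠ q := h.heavy hm (i, some k) hv hq
  have h3 : p ≠ v := by
    rintro rfl
    refine h.ind (Sum.inl (Sum.inr (Sum.inl (i, false))))
      (Sum.inl (Sum.inr (Sum.inr (Sum.inl (i, k))))) _ ?_ hp hv
    exact ⟨rfl, rfl⟩
  exact fin2_three h1 h2.symm h3

/-- The lower bound for girth six. -/
theorem lt_ex6 (c n : ℕ)
    (hn : 2 + 2 * (2 * c + 1) + (2 * c + 1) * (c + 1) +
      2 * ((2 * c + 1) * (c + 2) * (2 * c + 1)) ≤ n) :
    c < ex 2 6 n := by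
  obtain ⟨r, rfl⟩ := Nat.exists_eq_add_of_le hn
  have hcard : Fintype.card (EV (W (2 * c + 1) (c + 1) r)
      (Fin (2 * c + 1) × Option (Fin (c + 1))) (2 * c + 1)) =
      2 + 2 * (2 * c + 1) + (2 * c + 1) * (c + 1) +
      2 * ((2 * c + 1) * (c + 2) * (2 * c + 1)) + r := by
    simp only [Fintype.card_sum, Fintype.card_prod, Fintype.card_fin,
      Fintype.card_bool, Fintype.card_option]
    ring
  have σ := (Fintype.equivFinOfCardEq hcard).symm
  refine lt_ex (G (2 * c + 1) (c + 1) r (2 * c + 1)) σ (planar _ _ _ _) ?_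
    (fun f => not_weak (by omega) (by omega) (by omega) f)
  exact girth_six ((no3 _ _ _ _).comap σ) ((no4 _ _ _ _).comap σ) ((no5 _ _ _ _).comap σ)

end Six
end Pool.Agent.Lib.MP_dc87a5_co
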