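import Pool.Agent.Lib.MP_dc87a5_co.Five
import Pool.Agent.Lib.MP_dc87a5_co.Six

/-!
# Asymptotic form of the lower bounds
-/

namespace Pool.Agent.Lib.MP_dc87a5_co

open Filter Asymptotics

theorem not_isBigO {F : ℕ → ℝ} {a b K : ℝ} (hK : 0 < K) (hab : b < a)
    (h : ∀ᶠ n : ℕ in atTop, (n : ℝ) ^ a / K ≤ F n) :
    ¬ F =O[atTop] fun n : ℕ => (n : ℝ) ^ b := by
  intro hO
  obtain ⟨C, hC⟩ := hO.bound
  have h1 : Tendsto (fun n : ℕ => (n : ℝ) ^ (a - b)) atTop atTop :=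
    (tendsto_rpow_atTop (sub_pos.mpr hab)).comp tendsto_natCast_atTop_atTop
  have h2 := h1.eventually_gt_atTop (K * C)
  have h3 : ∀ᶠ n : ℕ in atTop, 0 < n := eventually_gt_atTop 0
  obtain ⟨n, ⟨⟨h4, h5⟩, h6⟩, h7⟩ := (((h.and hC).and h2).and h3).exists
  have hn : (0 : ℝ) < n := by exact_mod_cast h7
  have hb : 0 < (n : ℝ) ^ b := Real.rpow_pos_of_pos hn b
  rw [Real.norm_of_nonneg hb.le] at h5
  have h8 : (n : ℝ) ^ a / K ≤ C * (n : ℝ) ^ b := h4.trans ((le_abs_self _).trans h5)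
  rw [div_le_iff₀ hK] at h8
  rw [Real.rpow_sub hn, lt_div_iff₀ hb] at h6
  linarith

theorem five_lower : ∀ᶠ n : ℕ in atTop, Real.sqrt n / 4 ≤ (ex 2 5 n : ℝ) := by
  filter_upwards [eventually_ge_atTop 529] with n hn
  have hx0 : 0 ≤ Real.sqrt n := Real.sqrt_nonneg _
  have hx2 : Real.sqrt n * Real.sqrt n = n := Real.mul_self_sqrt (Nat.cast_nonneg _)
  have hx : 23 ≤ Real.sqrt n := by
    apply Real.le_sqrt_of_sq_le
    have : ((529 : ℕ) : ℝ) ≤ n := by exact_mod_cast hn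
    norm_num at this ⊢
    linarith
  set c : ℕ := ⌊Real.sqrt n / 4⌋₊ with hc
  have hc1 : (c : ℝ) ≤ Real.sqrt n / 4 := Nat.floor_le (by positivity)
  have hc2 : Real.sqrt n / 4 < c + 1 := Nat.lt_floor_add_one _
  have hc0 : (0 : ℝ) ≤ c := Nat.cast_nonneg _
  have hN : 1 + 3 * (c + 1) + 6 * ((c + 1) * (2 * c + 1)) ≤ n := by
    have : ((1 + 3 * (c + 1) + 6 * ((c + 1) * (2 * c + 1)) : ℕ) : ℝ) ≤ n := by
      push_cast
      rw [← hx2]
      nlinarith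
    exact_mod_cast this
  have h1 : c + 1 ≤ ex 2 5 n := Five.lt_ex5 c n hN
  have h2 : ((c : ℝ) + 1) ≤ ex 2 5 n := by exact_mod_cast h1
  linarith

theorem six_lower : ∀ᶠ n : ℕ in atTop, (n : ℝ) ^ (1 / 3 : ℝ) / 3 ≤ (ex 2 6 n : ℝ) := by
  filter_upwards [eventually_ge_atTop 1000] with n hn
  have hn' : (1000 : ℝ) ≤ n := by exact_mod_cast hn
  set y : ℝ := (n : ℝ) ^ (1 / 3 : ℝ) with hy
  have hy3 : y * y * y = n := by
    have : y ^ (3 : ℕ) = n := by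
      rw [hy, ← Real.rpow_natCast, ← Real.rpow_mul (Nat.cast_nonneg _)]
      norm_num
    nlinarith
  have hy0 : 0 ≤ y := Real.rpow_nonneg (Nat.cast_nonneg _) _
  have hy10 : 10 ≤ y := by
    by_contra hcon
    rw [not_le] at hcon
    have h1 : y * y < 10 * 10 := by nlinarith
    have h2 : y * y * y < 1000 := by nlinarith
    linarith
  set c : ℕ := ⌊y / 3⌋₊ with hc
  have hc1 : (c : ℝ) ≤ y / 3 := Nat.floor_le (by positivity)
  have hc2 : y / 3 < c + 1 := Nat.lt_floor_add_one _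
  have hc0 : (0 : ℝ) ≤ c := Nat.cast_nonneg _
  have hN : 2 + 2 * (2 * c + 1) + (2 * c + 1) * (c + 1) +
      2 * ((2 * c + 1) * (c + 2) * (2 * c + 1)) ≤ n := by
    have : ((2 + 2 * (2 * c + 1) + (2 * c + 1) * (c + 1) +
      2 * ((2 * c + 1) * (c + 2) * (2 * c + 1)) : ℕ) : ℝ) ≤ n := by
      push_cast
      rw [← hy3]
      have e2 : (c : ℝ) * c ≤ y / 3 * (y / 3) := mul_le_mul hc1 hc1 hc0 (by positivity)
      have e3 : (c : ℝ) * c * c ≤ y / 3 * (y / 3) * (y / 3) :=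
        mul_le_mul e2 hc1 hc0 (by positivity)
      have e4 : 10 * (y * y) ≤ y * y * y := by nlinarith [mul_nonneg hy0 hy0]
      have e5 : 10 * y ≤ y * y := by nlinarith
      nlinarith
    exact_mod_cast this
  have h1 : c + 1 ≤ ex 2 6 n := Six.lt_ex6 c n hN
  have h2 : ((c : ℝ) + 1) ≤ ex 2 6 n := by exact_mod_cast h1
  linarith

theorem five_not : ¬ (fun n : ℕ => (ex 2 5 n : ℝ)) =O[atTop] fun n : ℕ => (n : ℝ) ^ (1 / 3 : ℝ) := by
  refine not_isBigO (a := 1 / 2) (K := 4) (by norm_num) (by norm_num) ?_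
  filter_upwards [five_lower] with n hn
  rw [← Real.sqrt_eq_rpow]
  exact hn

theorem six_not : ¬ (fun n : ℕ => (ex 2 6 n : ℝ)) =O[atTop] fun n : ℕ => (n : ℝ) ^ (1 / 4 : ℝ) :=
  not_isBigO (a := 1 / 3) (K := 3) (by norm_num) (by norm_num) six_lower

end Pool.Agent.Lib.MP_dc87a5_co
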