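import Pool.Agent.Lib.MP_dc87a5_co.Defs

/-!
# A graph with a 2-page book embedding is planar
-/

namespace Pool.Agent.Lib.MP_dc87a5_co
namespace Book

/-- the parabolic arc over (`σ = 1`) or under (`σ = -1`) the interval between `a` and `b` -/
def arcSet (a b σ : ℝ) : Set (ℝ × ℝ) :=
  {z | (∃ t : ℝ, 0 ≤ t ∧ t ≤ 1 ∧ z.1 = a + t * (b - a)) ∧ z.2 = σ * ((z.1 - a) * (b - z.1))}

theorem arcSet_symm (a b σ : ℝ) : arcSet a b σ = arcSet b a σ := by
  ext z
  constructor
  · rintro ⟨⟨t, h0, h1, hz⟩, h2⟩
    refine ⟨⟨1 - t, by linarith, by linarith, by rw [hz]; ring⟩, by rw [h2]; ring⟩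
  · rintro ⟨⟨t, h0, h1, hz⟩, h2⟩
    refine ⟨⟨1 - t, by linarith, by linarith, by rw [hz]; ring⟩, by rw [h2]; ring⟩

theorem isArc (a b σ : ℝ) (hab : a ≠ b) : IsArc (arcSet a b σ) (a, 0) (b, 0) := by
  refine ⟨⟨fun t => (a + t * (b - a), σ * ((a + t * (b - a) - a) * (b - (a + t * (b - a))))),
    by fun_prop⟩, ?_, ?_, ?_, ?_⟩
  · intro t t' h
    have h1 : a + (t : ℝ) * (b - a) = a + (t' : ℝ) * (b - a) := congrArg Prod.fst h
    have h2 : (t : ℝ) * (b - a) = (t' : ℝ) * (b - a) := by linarith
    exact Subtype.ext (mul_right_cancel₀ (sub_ne_zero.mpr hab.symm) h2)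
  · simp
  · simp
  · ext z
    constructor
    · rintro ⟨t, rfl⟩
      exact ⟨⟨t, t.2.1, t.2.2, rfl⟩, rfl⟩
    · rintro ⟨⟨t, h0, h1, hz⟩, h2⟩
      refine ⟨⟨t, h0, h1⟩, ?_⟩
      apply Prod.ext
      · exact hz.symm
      · rw [h2, hz]
        rfl

theorem mem_cases {a b σ : ℝ} {z : ℝ × ℝ} (h : z ∈ arcSet a b σ) (hab : a < b)
    (hσ : σ = 1 ∨ σ = -1) :
    (z = (a, 0)) ∨ (z = (b, 0)) ∨ (a < z.1 ∧ z.1 < b ∧ z.2 ≠ 0) := by
  obtain ⟨⟨t, h0, h1, hz⟩, h2⟩ := h
  have hba : 0 < b - a := by linarith
  rcases eq_or_lt_of_le h0 with rfl | h0'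
  · left
    apply Prod.ext
    · rw [hz]; ring
    · rw [h2, hz]; ring
  rcases eq_or_lt_of_le h1 with rfl | h1'
  · right; left
    apply Prod.ext
    · rw [hz]; ring
    · rw [h2, hz]; ring
  right; right
  have ha : a < z.1 := by
    rw [hz]
    have := mul_pos h0' hba
    linarith
  have hb : z.1 < b := by
    rw [hz]
    have := mul_pos (sub_pos.mpr h1') hba
    nlinarith
  refine ⟨ha, hb, ?_⟩
  rw [h2]
  have hpos := mul_pos (sub_pos.mpr ha) (sub_pos.mpr hb)
  rcases hσ with rfl | rfl
  · linarith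
  · intro h
    linarith

/-- Two arcs over intervals which do not interleave meet only in common end points. -/
theorem cross {a b a' b' σ σ' : ℝ} {z : ℝ × ℝ} (hab : a < b) (hab' : a' < b')
    (hσ : σ = 1 ∨ σ = -1) (hσ' : σ' = 1 ∨ σ' = -1)
    (h1 : σ = σ' → a < a' → a' < b → b < b' → False)
    (h2 : σ = σ' → a' < a → a < b' → b' < b → False)
    (hne : ¬ (a = a' ∧ b = b'))
    (hz : z ∈ arcSet a b σ) (hz' : z ∈ arcSet a' b' σ') :
    (z = (a, 0) ∨ z = (b, 0)) ∧ (z = (a', 0) ∨ z = (b', 0)) := by
  rcases mem_cases hz hab hσ with h | h | ⟨h3, h4, h5⟩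
  · refine ⟨Or.inl h, ?_⟩
    rcases mem_cases hz' hab' hσ' with h' | h' | ⟨h3, h4, h5⟩
    · exact Or.inl h'
    · exact Or.inr h'
    · rw [h] at h5
      exact absurd rfl h5
  · refine ⟨Or.inr h, ?_⟩
    rcases mem_cases hz' hab' hσ' with h' | h' | ⟨h3, h4, h5⟩
    · exact Or.inl h'
    · exact Or.inr h'
    · rw [h] at h5
      exact absurd rfl h5
  · exfalso
    rcases mem_cases hz' hab' hσ' with h' | h' | ⟨h3', h4', -⟩
    · rw [h'] at h5
      exact h5 rfl
    · rw [h'] at h5
      exact h5 rfl
    · have e1 := hz.2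
      have e2 := hz'.2
      rw [e1] at e2
      have p1 := mul_pos (sub_pos.mpr h3) (sub_pos.mpr h4)
      have p2 := mul_pos (sub_pos.mpr h3') (sub_pos.mpr h4')
      have hss : σ = σ' := by
        rcases hσ with rfl | rfl <;> rcases hσ' with rfl | rfl
        · rfl
        · exfalso; linarith
        · exfalso; linarith
        · rfl
      subst hss
      have e3 : (z.1 - a) * (b - z.1) = (z.1 - a') * (b' - z.1) := by
        rcases hσ with rfl | rfl
        · linarith
        · linarith
      rcases lt_trichotomy a a' with ha | ha | ha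
      · -- `b' ≤ b`
        have hb : b' ≤ b := by
          by_contra hcon
          exact h1 rfl ha (by linarith) (by linarith)
        have : (z.1 - a') * (b' - z.1) < (z.1 - a) * (b - z.1) := by
          have k1 : (z.1 - a') * (b' - z.1) < (z.1 - a) * (b' - z.1) :=
            mul_lt_mul_of_pos_right (by linarith) (by linarith)
          have k2 : (z.1 - a) * (b' - z.1) ≤ (z.1 - a) * (b - z.1) :=
            mul_le_mul_of_nonneg_left (by linarith) (by linarith)
          linarith
        linarith
      · subst ha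
        have hb : b ≠ b' := fun h => hne ⟨rfl, h⟩
        have hzpos : 0 < z.1 - a := by linarith
        have := mul_left_cancel₀ (ne_of_gt hzpos) e3
        exact hb (by linarith)
      · have hb : b ≤ b' := by
          by_contra hcon
          exact h2 rfl ha (by linarith) (by linarith)
        have : (z.1 - a) * (b - z.1) < (z.1 - a') * (b' - z.1) := by
          have k1 : (z.1 - a) * (b - z.1) < (z.1 - a') * (b - z.1) :=
            mul_lt_mul_of_pos_right (by linarith) (by linarith)
          have k2 : (z.1 - a') * (b - z.1) ≤ (z.1 - a') * (b' - z.1) :=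
            mul_le_mul_of_nonneg_left (by linarith) (by linarith)
          linarith
        linarith

end Book

open Classical in
/-- A finite graph whose vertices are linearly ordered (by `key`) and whose edges are divided
into two pages such that edges of the same page never interleave is planar. -/
theorem planar_of_book {V : Type} [Fintype V] {K : Type} [LinearOrder K] (G : SimpleGraph V)
    (key : V → K) (hkey : Function.Injective key) (up : V → V → Prop)
    (hup : ∀ u v, up u v ↔ up v u)
    (h : ∀ u v u' v', G.Adj u v → G.Adj u' v' → (up u v ↔ up u' v') →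
      key u < key u' → key u' < key v → key v < key v' → False) : Planar G := by
  -- positions on the real line
  let pos : V → ℝ := fun v => ((Finset.univ.filter (fun w => key w < key v)).card : ℝ)
  have hmono : ∀ u v, key u < key v → pos u < pos v := by
    intro u v huv
    have : (Finset.univ.filter (fun w => key w < key u)).card <
        (Finset.univ.filter (fun w => key w < key v)).card := by
      apply Finset.card_lt_card
      refine ⟨?_, ?_⟩
      · intro w hw
        rw [Finset.mem_filter] at hw ⊢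
        exact ⟨hw.1, hw.2.trans huv⟩
      · intro hsub
        have hu : u ∈ Finset.univ.filter (fun w => key w < key v) := by
          rw [Finset.mem_filter]
          exact ⟨Finset.mem_univ _, huv⟩
        have := (Finset.mem_filter.mp (hsub hu)).2
        exact lt_irrefl _ this
    exact Nat.cast_lt.mpr this
  have hiff : ∀ u v, pos u < pos v ↔ key u < key v := by
    intro u v
    refine ⟨fun hlt => ?_, hmono u v⟩
    rcases lt_trichotomy (key u) (key v) with h1 | h1 | h1
    · exact h1
    · rw [hkey h1] at hlt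
      exact absurd hlt (lt_irrefl _)
    · exact absurd (hlt.trans (hmono v u h1)) (lt_irrefl _)
  have hinj : Function.Injective pos := by
    intro u v huv
    by_contra hne
    rcases lt_or_gt_of_ne (fun hk => hne (hkey hk)) with h1 | h1
    · exact absurd (hmono u v h1) (by rw [huv]; exact lt_irrefl _)
    · exact absurd (hmono v u h1) (by rw [huv]; exact lt_irrefl _)
  let σ : V → V → ℝ := fun u v => if up u v then 1 else -1
  have hσ : ∀ u v, σ u v = 1 ∨ σ u v = -1 := by
    intro u v
    by_cases hu : up u v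
    · left; simp only [σ, if_pos hu]
    · right; simp only [σ, if_neg hu]
  have hσs : ∀ u v, σ u v = σ v u := by
    intro u v
    simp only [σ, hup u v]
  have hσe : ∀ u v u' v', σ u v = σ u' v' → (up u v ↔ up u' v') := by
    intro u v u' v' he
    by_cases h1 : up u v <;> by_cases h2 : up u' v' <;> simp only [σ, h1, h2, if_true, if_false] at he ⊢
    · norm_num at he
    · norm_num at he
  let S : V → V → Set (ℝ × ℝ) := fun u v => Book.arcSet (pos u) (pos v) (σ u v)
  have hSs : ∀ u v, S u v = S v u := by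
    intro u v
    simp only [S]
    rw [Book.arcSet_symm, hσs u v]
  let A : Sym2 V → Set (ℝ × ℝ) := fun e => {z | ∃ u v, e = s(u, v) ∧ z ∈ S u v}
  have hA : ∀ u v, A s(u, v) = S u v := by
    intro u v
    ext z
    constructor
    · rintro ⟨u', v', he, hz⟩
      rcases Sym2.eq_iff.mp he with ⟨rfl, rfl⟩ | ⟨rfl, rfl⟩
      · exact hz
      · rw [hSs]; exact hz
    · intro hz
      exact ⟨u, v, rfl, hz⟩
  -- the crossing lemma for ordered pairs
  have hcross : ∀ u v u' v', G.Adj u v → G.Adj u' v' → pos u < pos v → pos u' < pos v' →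
      s(u, v) ≠ s(u', v') → ∀ z, z ∈ S u v → z ∈ S u' v' →
      (z = (pos u, 0) ∨ z = (pos v, 0)) ∧ (z = (pos u', 0) ∨ z = (pos v', 0)) := by
    intro u v u' v' huv huv' hlt hlt' hne z hz hz'
    refine Book.cross hlt hlt' (hσ u v) (hσ u' v') ?_ ?_ ?_ hz hz'
    · intro he h1 h2 h3
      exact h u v u' v' huv huv' (hσe _ _ _ _ he) ((hiff _ _).mp h1) ((hiff _ _).mp h2)
        ((hiff _ _).mp h3)
    · intro he h1 h2 h3
      exact h u' v' u v huv' huv (hσe _ _ _ _ he).symm ((hiff _ _).mp h1) ((hiff _ _).mp h2)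
        ((hiff _ _).mp h3)
    · rintro ⟨h1, h2⟩
      rw [hinj h1, hinj h2] at hne
      exact hne rfl
  refine ⟨fun v => (pos v, 0), A, ?_, ?_, ?_, ?_⟩
  · intro u v huv
    exact hinj (congrArg Prod.fst huv)
  · intro u v huv
    rw [hA]
    exact Book.isArc _ _ _ (fun he => huv.ne (hinj he))
  · intro u v w huv hw
    rw [hA] at hw
    have hne : pos u ≠ pos v := fun he => huv.ne (hinj he)
    rcases lt_or_gt_of_ne hne with hlt | hlt
    · rcases Book.mem_cases hw hlt (hσ u v) with h1 | h1 | ⟨-, -, h1⟩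
      · exact Or.inl (hinj (congrArg Prod.fst h1))
      · exact Or.inr (hinj (congrArg Prod.fst h1))
      · exact absurd rfl h1
    · rw [hSs] at hw
      rcases Book.mem_cases hw hlt (hσ v u) with h1 | h1 | ⟨-, -, h1⟩
      · exact Or.inr (hinj (congrArg Prod.fst h1))
      · exact Or.inl (hinj (congrArg Prod.fst h1))
      · exact absurd rfl h1
  · intro u v u' v' huv huv' hne z hz
    rw [hA, hA] at hz
    obtain ⟨hz1, hz2⟩ := hz
    have key1 : (z = (pos u, 0) ∨ z = (pos v, 0)) ∧ (z = (pos u', 0) ∨ z = (pos v', 0)) := by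
      have hn : pos u ≠ pos v := fun he => huv.ne (hinj he)
      have hn' : pos u' ≠ pos v' := fun he => huv'.ne (hinj he)
      rcases lt_or_gt_of_ne hn with hlt | hlt <;> rcases lt_or_gt_of_ne hn' with hlt' | hlt'
      · exact hcross u v u' v' huv huv' hlt hlt' hne z hz1 hz2
      · rw [hSs] at hz2
        have := hcross u v v' u' huv huv'.symm hlt hlt' (by rwa [Sym2.eq_swap (a := v')]) z hz1 hz2
        exact ⟨this.1, this.2.symm⟩
      · rw [hSs] at hz1
        have := hcross v u u' v' huv.symm huv' hlt hlt' (by rwa [Sym2.eq_swap (a := v)]) z hz1 hz2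
        exact ⟨this.1.symm, this.2⟩
      · rw [hSs] at hz1 hz2
        have := hcross v u v' u' huv.symm huv'.symm hlt hlt'
          (by rwa [Sym2.eq_swap (a := v), Sym2.eq_swap (a := v')]) z hz1 hz2
        exact ⟨this.1.symm, this.2.symm⟩
    obtain ⟨k1, k2⟩ := key1
    have hw : ∀ x y, z = (pos x, 0) → z = (pos y, 0) → x = y := by
      intro x y hx hy
      rw [hx] at hy
      exact hinj (congrArg Prod.fst hy)
    rcases k1 with k1 | k1 <;> rcases k2 with k2 | k2
    · exact ⟨u, Or.inl rfl, Or.inl (hw _ _ k1 k2), k1⟩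
    · exact ⟨u, Or.inl rfl, Or.inr (hw _ _ k1 k2), k1⟩
    · exact ⟨v, Or.inr rfl, Or.inl (hw _ _ k1 k2), k1⟩
    · exact ⟨v, Or.inr rfl, Or.inr (hw _ _ k1 k2), k1⟩

end Pool.Agent.Lib.MP_dc87a5_co
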