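import Pool.Agent.Lib.MP_dc87a5_co.Expand

/-!
# Colourings of expanded graphs, planarity by triples, transfer to `Fin n`
-/

namespace Pool.Agent.Lib.MP_dc87a5_co

/-- what we use of a `(2, c)`-colouring -/
structure Weak {V : Type} (G : SimpleGraph V) (c : ℕ) (f : V → Fin 2 ⊕ Fin c) : Prop where
  ind : ∀ u v i, G.Adj u v → f u = Sum.inl i → f v = Sum.inl i → False
  two : ∀ w u v j, G.Adj w u → G.Adj w v → f u = Sum.inr j → f v = Sum.inr j → u = v

theorem weak_of_colourable {V : Type} {G : SimpleGraph V} {c : ℕ} (h : ABColourable 2 c G) :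
    ∃ f, Weak G c f := by
  obtain ⟨f, h1, h2⟩ := h
  refine ⟨f, ?_, ?_⟩
  · intro u v i huv hu hv
    exact h1 i hu hv huv.ne huv
  · intro w u v j hu hv hfu hfv
    by_contra hne
    have h3 := h2 j u hfu v hfv hne
    have h4 : G.edist u v ≤ 2 := by
      have := SimpleGraph.Walk.edist_le (SimpleGraph.Walk.cons hu.symm
        (SimpleGraph.Walk.cons hv SimpleGraph.Walk.nil))
      simpa using this
    have h5 : (3 : ℕ∞) ≤ 2 := h3.trans h4
    have h6 : (3 : ℕ) ≤ 2 := by exact_mod_cast h5
    omega

theorem Weak.comap {V V' : Type} {G : SimpleGraph V} {c : ℕ} (σ : V' ≃ V)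
    {f : V' → Fin 2 ⊕ Fin c} (h : Weak (G.comap σ) c f) : Weak G c (f ∘ σ.symm) := by
  refine ⟨?_, ?_⟩
  · intro u v i huv hu hv
    refine h.ind (σ.symm u) (σ.symm v) i ?_ hu hv
    rw [SimpleGraph.comap_adj, σ.apply_symm_apply, σ.apply_symm_apply]
    exact huv
  · intro w u v j hu hv hfu hfv
    have := h.two (σ.symm w) (σ.symm u) (σ.symm v) j
      (by rw [SimpleGraph.comap_adj, σ.apply_symm_apply, σ.apply_symm_apply]; exact hu)
      (by rw [SimpleGraph.comap_adj, σ.apply_symm_apply, σ.apply_symm_apply]; exact hv) hfu hfv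
    exact σ.symm.injective this

section Count

variable {V : Type} {G : SimpleGraph V} {c : ℕ} {f : V → Fin 2 ⊕ Fin c}

theorem Weak.few (h : Weak G c f) {n : ℕ} (w : V) (u : Fin n → V) (hu : Function.Injective u)
    (hw : ∀ i, G.Adj w (u i)) (hf : ∀ i, ∃ j, f (u i) = Sum.inr j) : n ≤ c := by
  choose j hj using hf
  have hinj : Function.Injective j := by
    intro i i' hii
    refine hu (h.two w (u i) (u i') (j i) (hw i) (hw i') (hj i) ?_)
    rw [hj i', hii]
  simpa using Fintype.card_le_of_injective j hinj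

theorem Weak.few2 (h : Weak G c f) {n : ℕ} (w : Bool → V) (u : Bool → Fin n → V)
    (hu : ∀ β, Function.Injective (u β)) (hw : ∀ β i, G.Adj (w β) (u β i))
    (hf : ∀ i, ∃ β j, f (u β i) = Sum.inr j) : n ≤ 2 * c := by
  choose β j hj using hf
  have hinj : Function.Injective (fun i => (β i, j i)) := by
    intro i i' hii
    have h1 : β i = β i' := congrArg Prod.fst hii
    have h2 : j i = j i' := congrArg Prod.snd hii
    refine hu (β i) (h.two (w (β i)) (u (β i) i) (u (β i) i') (j i) (hw _ i) (hw _ i') (hj i) ?_)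
    rw [h1, hj i', h2]
  simpa using Fintype.card_le_of_injective _ hinj

/-- three pairwise adjacent-like vertices cannot share two colours -/
theorem fin2_three {a b d : Fin 2} (h1 : a ≠ b) (h2 : b ≠ d) (h3 : a ≠ d) : False := by
  revert a b d
  decide

end Count

section Heavy

variable {W E : Type} {L : SimpleGraph W} {en : E → Bool → W} {m c : ℕ}
  {f : EV W E m → Fin 2 ⊕ Fin c}

/-- The ends of a bundle of more than `2c` paths get different colours. -/
theorem Weak.heavy (h : Weak (expand L en m) c f) (hm : 2 * c < m) (e : E) {i i' : Fin 2}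
    (h1 : f (Sum.inl (en e false)) = Sum.inl i) (h2 : f (Sum.inl (en e true)) = Sum.inl i') :
    i ≠ i' := by
  rintro rfl
  have := h.few2 (n := m) (fun β => Sum.inl (en e β)) (fun β j => Sum.inr (e, j, β))
    (by
      intro β j j' hj
      have := Sum.inr_injective hj
      exact congrArg (fun x => x.2.1) this)
    (by
      intro β j
      exact ex_lr.mpr rfl)
    (by
      intro j
      rcases hx : f (Sum.inr (e, j, false)) with a | a
      · rcases hy : f (Sum.inr (e, j, true)) with b | b
        · exfalso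
          have n1 : a ≠ i := by
            rintro rfl
            exact h.ind _ _ _ (ex_lr.mpr rfl) h1 hx
          have n2 : b ≠ i := by
            rintro rfl
            exact h.ind _ _ _ (ex_lr.mpr rfl) h2 hy
          have n3 : a ≠ b := by
            rintro rfl
            exact h.ind _ _ _ (ex_rr.mpr ⟨rfl, rfl, by decide⟩) hx hy
          exact fin2_three n1 n2.symm n3
        · exact ⟨true, b, hy⟩
      · exact ⟨false, a, hx⟩)
  omega

end Heavy

/-! ### Planarity from positions given by triples of natural numbers -/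

/-- lexicographic order -/
def lt3 (a b : ℕ × ℕ × ℕ) : Prop :=
  a.1 < b.1 ∨ (a.1 = b.1 ∧ (a.2.1 < b.2.1 ∨ (a.2.1 = b.2.1 ∧ a.2.2 < b.2.2)))

def tolex3 (a : ℕ × ℕ × ℕ) : ℕ ×ₗ (ℕ ×ₗ ℕ) := toLex (a.1, toLex (a.2.1, a.2.2))

theorem tolex3_inj : Function.Injective tolex3 := by
  rintro ⟨a, b, c⟩ ⟨a', b', c'⟩ h
  have h1 := toLex.injective h
  have h2 : a = a' := congrArg Prod.fst h1
  have h3 : toLex (b, c) = toLex (b', c') := congrArg Prod.snd h1
  have h4 := toLex.injective h3
  rw [h2, h4]

theorem tolex3_lt (a b : ℕ × ℕ × ℕ) : tolex3 a < tolex3 b ↔ lt3 a b := by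
  unfold tolex3 lt3
  rw [Prod.Lex.toLex_lt_toLex, Prod.Lex.toLex_lt_toLex]

theorem planar_of_arcs {V : Type} [Fintype V] (G : SimpleGraph V) (key : V → ℕ × ℕ × ℕ)
    (hkey : Function.Injective key) (Low Up : ℕ × ℕ × ℕ → ℕ × ℕ × ℕ → Prop)
    (hlt : ∀ a b, Low a b → lt3 a b) (hltu : ∀ a b, Up a b → lt3 a b)
    (hadj : ∀ u v, G.Adj u v →
      Low (key u) (key v) ∨ Low (key v) (key u) ∨ Up (key u) (key v) ∨ Up (key v) (key u))
    (hlow : ∀ a b a' b', Low a b → Low a' b' → lt3 a a' → lt3 a' b → lt3 b b' → False)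
    (hup : ∀ a b a' b', Up a b → Up a' b' → lt3 a a' → lt3 a' b → lt3 b b' → False) :
    Planar G := by
  have trans3 : ∀ a b c, lt3 a b → lt3 b c → lt3 a c := by
    intro a b c h1 h2
    rw [← tolex3_lt] at *
    exact h1.trans h2
  have asymm3 : ∀ a b, lt3 a b → lt3 b a → False := by
    intro a b h1 h2
    rw [← tolex3_lt] at *
    exact lt_asymm h1 h2
  refine planar_of_book G (fun v => tolex3 (key v)) (tolex3_inj.comp hkey)
    (fun u v => ¬ (Low (key u) (key v) ∨ Low (key v) (key u))) ?_ ?_
  · intro u v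
    rw [or_comm]
  · intro u v u' v' huv huv' hpage h1 h2 h3
    rw [tolex3_lt] at h1 h2 h3
    have k1 : lt3 (key u) (key v) := trans3 _ _ _ h1 h2
    have k2 : lt3 (key u') (key v') := trans3 _ _ _ h2 h3
    by_cases hl : Low (key u) (key v) ∨ Low (key v) (key u)
    · have hl' : Low (key u') (key v') ∨ Low (key v') (key u') := by
        by_contra hcon
        exact (hpage.mpr hcon) hl
      rcases hl with hl | hl
      · rcases hl' with hl' | hl'
        · exact hlow _ _ _ _ hl hl' h1 h2 h3
        · exact asymm3 _ _ k2 (hlt _ _ hl')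
      · exact asymm3 _ _ k1 (hlt _ _ hl)
    · have hl' : ¬ (Low (key u') (key v') ∨ Low (key v') (key u')) := hpage.mp hl
      have hu : Up (key u) (key v) := by
        rcases hadj u v huv with h | h | h | h
        · exact absurd (Or.inl h) hl
        · exact absurd (Or.inr h) hl
        · exact h
        · exact absurd (hltu _ _ h) (fun h' => asymm3 _ _ k1 h')
      have hu' : Up (key u') (key v') := by
        rcases hadj u' v' huv' with h | h | h | h
        · exact absurd (Or.inl h) hl'
        · exact absurd (Or.inr h) hl'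
        · exact h
        · exact absurd (hltu _ _ h) (fun h' => asymm3 _ _ k2 h')
      exact hup _ _ _ _ hu hu' h1 h2 h3

/-! ### Transfer to `Fin n` -/

theorem Planar.comap {V V' : Type} {G : SimpleGraph V} (h : Planar G) (σ : V' ≃ V) :
    Planar (G.comap σ) := by
  obtain ⟨p, A, h1, h2, h3, h4⟩ := h
  have hmap : ∀ u v, Sym2.map σ s(u, v) = s(σ u, σ v) := fun u v => rfl
  refine ⟨p ∘ σ, A ∘ Sym2.map σ, h1.comp σ.injective, ?_, ?_, ?_⟩
  · intro u v huv
    exact h2 _ _ huv
  · intro u v w huv hw
    rcases h3 (σ u) (σ v) (σ w) huv hw with h | h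
    · exact Or.inl (σ.injective h)
    · exact Or.inr (σ.injective h)
  · intro u v u' v' huv huv' hne z hz
    obtain ⟨w, hw1, hw2, hw3⟩ := h4 (σ u) (σ v) (σ u') (σ v') huv huv' (by
      intro he
      apply hne
      rw [← hmap, ← hmap] at he
      exact Sym2.map.injective σ.injective he) z hz
    refine ⟨σ.symm w, ?_, ?_, ?_⟩
    · rcases hw1 with h | h
      · exact Or.inl (by rw [h, σ.symm_apply_apply])
      · exact Or.inr (by rw [h, σ.symm_apply_apply])
    · rcases hw2 with h | h
      · exact Or.inl (by rw [h, σ.symm_apply_apply])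
      · exact Or.inr (by rw [h, σ.symm_apply_apply])
    · simp only [Function.comp_apply, σ.apply_symm_apply]
      exact hw3

theorem No3.comap {V V' : Type} {G : SimpleGraph V} (h : No3 G) (σ : V' ≃ V) :
    No3 (G.comap σ) := fun _ _ _ h1 h2 h3 => h _ _ _ h1 h2 h3

theorem No4.comap {V V' : Type} {G : SimpleGraph V} (h : No4 G) (σ : V' ≃ V) :
    No4 (G.comap σ) := fun _ _ _ _ h1 h2 h3 h4 n1 n2 =>
  h _ _ _ _ h1 h2 h3 h4 (σ.injective.ne n1) (σ.injective.ne n2)

theorem No5.comap {V V' : Type} {G : SimpleGraph V} (h : No5 G) (σ : V' ≃ V) :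
    No5 (G.comap σ) := fun _ _ _ _ _ h1 h2 h3 h4 h5 n1 n2 n3 n4 n5 =>
  h _ _ _ _ _ h1 h2 h3 h4 h5 (σ.injective.ne n1) (σ.injective.ne n2) (σ.injective.ne n3)
    (σ.injective.ne n4) (σ.injective.ne n5)

/-- every vertex its own colour -/
theorem colourable_self (k n : ℕ) (G : SimpleGraph (Fin n)) : ABColourable k n G := by
  refine ⟨fun v => Sum.inr v, ?_, ?_⟩
  · intro i u hu
    exact absurd hu (by simp)
  · intro j u hu v hv hne
    have h1 : u = j := Sum.inr_injective hu
    have h2 : v = j := Sum.inr_injective hv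
    exact absurd (h1.trans h2.symm) hne

theorem colourable_mono {k c c' n : ℕ} (hc : c ≤ c') {G : SimpleGraph (Fin n)}
    (h : ABColourable k c G) : ABColourable k c' G := by
  obtain ⟨f, h1, h2⟩ := h
  refine ⟨fun v => Sum.map id (Fin.castLE hc) (f v), ?_, ?_⟩
  · intro i u hu v hv
    refine h1 i ?_ ?_
    · have hu' : Sum.map id (Fin.castLE hc) (f u) = Sum.inl i := hu
      rcases hfu : f u with a | a
      · rw [hfu] at hu'
        have := Sum.inl_injective hu'
        show f u = _
        rw [hfu, ← this]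
        rfl
      · rw [hfu] at hu'
        exact absurd hu' (by simp)
    · have hu' : Sum.map id (Fin.castLE hc) (f v) = Sum.inl i := hv
      rcases hfu : f v with a | a
      · rw [hfu] at hu'
        have := Sum.inl_injective hu'
        show f v = _
        rw [hfu, ← this]
        rfl
      · rw [hfu] at hu'
        exact absurd hu' (by simp)
  · intro j u hu v hv hne
    have hu' : Sum.map id (Fin.castLE hc) (f u) = Sum.inr j := hu
    have hv' : Sum.map id (Fin.castLE hc) (f v) = Sum.inr j := hv
    rcases hfu : f u with a | a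
    · rw [hfu] at hu'
      exact absurd hu' (by simp)
    · rcases hfv : f v with b | b
      · rw [hfv] at hv'
        exact absurd hv' (by simp)
      · rw [hfu] at hu'
        rw [hfv] at hv'
        have e1 := Sum.inr_injective hu'
        have e2 := Sum.inr_injective hv'
        have e3 : a = b := by
          apply Fin.castLE_injective hc
          rw [e1, e2]
        subst e3
        exact h2 a u hfu v hfv hne

/-- a planar graph with `n` vertices, girth at least `g` and no `(2, c)`-colouring -/
theorem lt_ex {g n c : ℕ} {V : Type} (G : SimpleGraph V) (σ : Fin n ≃ V) (hp : Planar G)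
    (hg : (g : ℕ∞) ≤ (G.comap σ).egirth) (hw : ∀ f, ¬ Weak G c f) : c < ex 2 g n := by
  by_contra hcon
  rw [not_lt] at hcon
  have hne : {c | ∀ G : SimpleGraph (Fin n), Planar G → (g : ℕ∞) ≤ G.egirth →
      ABColourable 2 c G}.Nonempty := ⟨n, fun G _ _ => colourable_self 2 n G⟩
  have hmem := Nat.sInf_mem hne
  have h1 := hmem (G.comap σ) (hp.comap σ) hg
  obtain ⟨f, hf⟩ := weak_of_colourable (colourable_mono hcon h1)
  exact hw _ hf.comap

end Pool.Agent.Lib.MP_dc87a5_co
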