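import Mathlib

/-!
# Distance-2 colours for planar graphs of given girth: definitions
-/

namespace Pool.Agent.Lib.MP_dc87a5_co

/-- `A` is an arc of the plane with end points `x` and `y`: the image of a continuous injective
map of the unit interval with `0 ↦ x` and `1 ↦ y`. -/
def IsArc (A : Set (ℝ × ℝ)) (x y : ℝ × ℝ) : Prop :=
  ∃ γ : C(unitInterval, ℝ × ℝ), Function.Injective γ ∧ γ 0 = x ∧ γ 1 = y ∧ Set.range γ = A

/-- A graph is planar if it can be drawn in the plane: the vertices `v` are drawn as distinct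
points `p v`, every edge `uv` as an arc `A s(u, v)` joining `p u` and `p v` which contains no other
vertex, and the arcs of two different edges meet only in common end points. -/
def Planar {V : Type} (G : SimpleGraph V) : Prop :=
  ∃ (p : V → ℝ × ℝ) (A : Sym2 V → Set (ℝ × ℝ)), Function.Injective p ∧
    (∀ u v, G.Adj u v → IsArc (A s(u, v)) (p u) (p v)) ∧
    (∀ u v w, G.Adj u v → p w ∈ A s(u, v) → w = u ∨ w = v) ∧
    ∀ u v u' v', G.Adj u v → G.Adj u' v' → s(u, v) ≠ s(u', v') →
      ∀ z ∈ A s(u, v) ∩ A s(u', v'), ∃ w, (w = u ∨ w = v) ∧ (w = u' ∨ w = v') ∧ z = p w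

/-- `S` is 2-independent: distinct vertices of `S` have distance at least 3. -/
def IsTwoIndepSet {V : Type} (G : SimpleGraph V) (S : Set V) : Prop :=
  ∀ u ∈ S, ∀ v ∈ S, u ≠ v → 3 ≤ G.edist u v

/-- `(a, b)`-colourable: the vertex set can be partitioned into at most `a` independent sets and
at most `b` 2-independent sets. -/
def ABColourable {V : Type} (a b : ℕ) (G : SimpleGraph V) : Prop :=
  ∃ f : V → Fin a ⊕ Fin b, (∀ i, G.IsIndepSet {v | f v = Sum.inl i}) ∧
    ∀ j, IsTwoIndepSet G {v | f v = Sum.inr j}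

/-- `ex_k(P_g)(n)`: the least `c` such that every planar graph with `n` vertices and girth at
least `g` is `(k, c)`-colourable. -/
noncomputable def ex (k g n : ℕ) : ℕ :=
  sInf {c | ∀ G : SimpleGraph (Fin n), Planar G → (g : ℕ∞) ≤ G.egirth → ABColourable k c G}

end Pool.Agent.Lib.MP_dc87a5_co
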