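import Pool.Agent.Lib.MP_dc87a5_co.Book

/-!
# Replacing edges by bundles of paths of length three
-/

namespace Pool.Agent.Lib.MP_dc87a5_co

variable {W E : Type}

/-- the vertices of the expanded graph: the old vertices and two new vertices for every path -/
abbrev EV (W E : Type) (m : ℕ) : Type := W ⊕ (E × Fin m × Bool)

/-- the adjacency of the expanded graph -/
def ExAdj (L : SimpleGraph W) (en : E → Bool → W) (m : ℕ) : EV W E m → EV W E m → Prop
  | Sum.inl a, Sum.inl b => L.Adj a b
  | Sum.inl a, Sum.inr x => a = en x.1 x.2.2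
  | Sum.inr x, Sum.inl a => a = en x.1 x.2.2
  | Sum.inr x, Sum.inr y => x.1 = y.1 ∧ x.2.1 = y.2.1 ∧ x.2.2 ≠ y.2.2

/-- the expanded graph: `L` together with, for every `e : E`, `m` internally disjoint paths of
length three from `en e false` to `en e true`. -/
def expand (L : SimpleGraph W) (en : E → Bool → W) (m : ℕ) : SimpleGraph (EV W E m) where
  Adj := ExAdj L en m
  symm := by
    constructor
    rintro (a | x) (b | y) h
    · exact SimpleGraph.Adj.symm (G := L) h
    · exact h
    · exact h
    · exact ⟨h.1.symm, h.2.1.symm, h.2.2.symm⟩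
  loopless := by
    constructor
    rintro (a | x) h
    · exact SimpleGraph.irrefl L (v := a) h
    · exact h.2.2 rfl

variable {L : SimpleGraph W} {en : E → Bool → W} {m : ℕ}

theorem ex_ll {a b : W} : (expand L en m).Adj (Sum.inl a) (Sum.inl b) ↔ L.Adj a b := Iff.rfl

theorem ex_lr {a : W} {e : E} {j : Fin m} {β : Bool} :
    (expand L en m).Adj (Sum.inl a) (Sum.inr (e, j, β)) ↔ a = en e β := Iff.rfl

theorem ex_rl {a : W} {e : E} {j : Fin m} {β : Bool} :
    (expand L en m).Adj (Sum.inr (e, j, β)) (Sum.inl a) ↔ a = en e β := Iff.rfl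

theorem ex_rr {e e' : E} {j j' : Fin m} {β β' : Bool} :
    (expand L en m).Adj (Sum.inr (e, j, β)) (Sum.inr (e', j', β')) ↔
      e = e' ∧ j = j' ∧ β ≠ β' := Iff.rfl

/-- the two neighbours of a new vertex -/
theorem nbr {e : E} {j : Fin m} {β : Bool} {v : EV W E m}
    (h : (expand L en m).Adj (Sum.inr (e, j, β)) v) :
    v = Sum.inl (en e β) ∨ v = Sum.inr (e, j, !β) := by
  rcases v with a | ⟨e', j', β'⟩
  · left
    rw [ex_rl] at h
    rw [h]
  · right
    obtain ⟨rfl, rfl, hb⟩ := ex_rr.mp h
    rw [show β' = !β by cases β <;> cases β' <;> simp_all]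

theorem nbr2 {e : E} {j : Fin m} {β : Bool} {u v : EV W E m} (huv : u ≠ v)
    (hu : (expand L en m).Adj (Sum.inr (e, j, β)) u)
    (hv : (expand L en m).Adj (Sum.inr (e, j, β)) v) :
    (u = Sum.inl (en e β) ∧ v = Sum.inr (e, j, !β)) ∨
      (v = Sum.inl (en e β) ∧ u = Sum.inr (e, j, !β)) := by
  rcases nbr hu with h1 | h1 <;> rcases nbr hv with h2 | h2
  · exact absurd (h1.trans h2.symm) huv
  · exact Or.inl ⟨h1, h2⟩
  · exact Or.inr ⟨h2, h1⟩
  · exact absurd (h1.trans h2.symm) huv

/-- no triangles -/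
def No3 {V : Type} (G : SimpleGraph V) : Prop :=
  ∀ a b c, G.Adj a b → G.Adj b c → G.Adj c a → False

/-- no cycles of length four -/
def No4 {V : Type} (G : SimpleGraph V) : Prop :=
  ∀ a b c d, G.Adj a b → G.Adj b c → G.Adj c d → G.Adj d a → a ≠ c → b ≠ d → False

/-- no cycles of length five -/
def No5 {V : Type} (G : SimpleGraph V) : Prop :=
  ∀ a b c d e, G.Adj a b → G.Adj b c → G.Adj c d → G.Adj d e → G.Adj e a →
    a ≠ c → b ≠ d → c ≠ e → d ≠ a → e ≠ b → False

theorem no3_expand (hL : No3 L) (h0 : ∀ e β, en e β ≠ en e (!β)) : No3 (expand L en m) := by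
  have key : ∀ a b c : EV W E m, (expand L en m).Adj a b → (expand L en m).Adj b c →
      (expand L en m).Adj c a → ∀ x, a ≠ Sum.inr x := by
    rintro a b c hab hbc hca ⟨e, j, β⟩ rfl
    rcases nbr2 hbc.ne hab hca.symm with ⟨rfl, rfl⟩ | ⟨rfl, rfl⟩
    · rw [ex_lr] at hbc
      exact h0 _ _ hbc
    · rw [ex_rl] at hbc
      exact h0 _ _ hbc
  intro a b c hab hbc hca
  rcases a with a | x
  · rcases b with b | y
    · rcases c with c | z
      · exact hL a b c hab hbc hca
      · exact key _ _ _ hca hab hbc z rfl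
    · exact key _ _ _ hbc hca hab y rfl
  · exact key _ _ _ hab hbc hca x rfl

theorem no4_expand (hL : No4 L) (h0 : ∀ e β, ¬ L.Adj (en e β) (en e (!β))) :
    No4 (expand L en m) := by
  have key : ∀ a b c d : EV W E m, (expand L en m).Adj a b → (expand L en m).Adj b c →
      (expand L en m).Adj c d → (expand L en m).Adj d a → a ≠ c → b ≠ d → ∀ x, a ≠ Sum.inr x := by
    rintro a b c d hab hbc hcd hda hac hbd ⟨e, j, β⟩ rfl
    rcases nbr2 hbd hab hda.symm with ⟨rfl, rfl⟩ | ⟨rfl, rfl⟩
    · rcases nbr hcd.symm with rfl | rfl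
      · exact h0 _ _ (ex_ll.mp hbc)
      · rw [Bool.not_not] at hac
        exact hac rfl
    · rcases nbr hbc with rfl | rfl
      · exact h0 _ _ (ex_ll.mp hcd).symm
      · rw [Bool.not_not] at hac
        exact hac rfl
  intro a b c d hab hbc hcd hda hac hbd
  rcases a with a | x
  · rcases b with b | y
    · rcases c with c | z
      · rcases d with d | w
        · exact hL a b c d hab hbc hcd hda (fun h => hac (by rw [h])) (fun h => hbd (by rw [h]))
        · exact key _ _ _ _ hda hab hbc hcd hbd.symm hac w rfl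
      · exact key _ _ _ _ hcd hda hab hbc hac.symm hbd.symm z rfl
    · exact key _ _ _ _ hbc hcd hda hab hbd hac.symm y rfl
  · exact key _ _ _ _ hab hbc hcd hda hac hbd x rfl

theorem no5_expand (hL : No5 L) (h0 : ∀ e β, en e β ≠ en e (!β))
    (h1 : ∀ e β z, L.Adj (en e β) z → L.Adj z (en e (!β)) → False) :
    No5 (expand L en m) := by
  have mid : ∀ (e : E) (β : Bool) (z : EV W E m), (expand L en m).Adj (Sum.inl (en e β)) z →
      (expand L en m).Adj z (Sum.inl (en e (!β))) → False := by
    rintro e β (z | ⟨e', j', β'⟩) hz1 hz2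
    · exact h1 e β z hz1 hz2
    · rw [ex_lr] at hz1
      rw [ex_rl] at hz2
      exact h0 e β (hz1.trans hz2.symm)
  have key : ∀ a b c d f : EV W E m, (expand L en m).Adj a b → (expand L en m).Adj b c →
      (expand L en m).Adj c d → (expand L en m).Adj d f → (expand L en m).Adj f a →
      a ≠ c → b ≠ d → c ≠ f → d ≠ a → f ≠ b → ∀ x, a ≠ Sum.inr x := by
    rintro a b c d f hab hbc hcd hdf hfa hac hbd hcf hda hfb ⟨e, j, β⟩ rfl
    rcases nbr2 hfb.symm hab hfa.symm with ⟨rfl, rfl⟩ | ⟨rfl, rfl⟩
    · rcases nbr hdf.symm with rfl | rfl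
      · exact mid _ _ _ hbc hcd
      · rw [Bool.not_not] at hda
        exact hda rfl
    · rcases nbr hbc with rfl | rfl
      · exact mid _ _ _ hdf.symm hcd.symm
      · rw [Bool.not_not] at hac
        exact hac rfl
  intro a b c d f hab hbc hcd hdf hfa hac hbd hcf hda hfb
  rcases a with a | x
  · rcases b with b | y
    · rcases c with c | z
      · rcases d with d | w
        · rcases f with f | v
          · exact hL a b c d f hab hbc hcd hdf hfa (fun h => hac (by rw [h]))
              (fun h => hbd (by rw [h])) (fun h => hcf (by rw [h])) (fun h => hda (by rw [h]))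
              (fun h => hfb (by rw [h]))
          · exact key _ _ _ _ _ hfa hab hbc hcd hdf hfb hac hbd hcf hda v rfl
        · exact key _ _ _ _ _ hdf hfa hab hbc hcd hda hfb hac hbd hcf w rfl
      · exact key _ _ _ _ _ hcd hdf hfa hab hbc hcf hda hfb hac hbd z rfl
    · exact key _ _ _ _ _ hbc hcd hdf hfa hab hbd hcf hda hfb hac y rfl
  · exact key _ _ _ _ _ hab hbc hcd hdf hfa hac hbd hcf hda hfb x rfl

/-! ### Girth -/

section Girth

variable {V : Type} {G : SimpleGraph V}

theorem cycle_step {a : V} (w : G.Walk a a) {i : ℕ} (hi : i < w.length) :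
    G.Adj (w.getVert i) (w.getVert (i + 1)) := w.adj_getVert_succ hi

theorem girth_five (h3 : No3 G) (h4 : No4 G) : (5 : ℕ∞) ≤ G.egirth := by
  rw [SimpleGraph.le_egirth]
  intro a w hw
  by_contra hcon
  have hlen3 := hw.three_le_length
  have hlen : w.length = 3 ∨ w.length = 4 := by
    have : w.length < 5 := by
      have := not_le.mp hcon
      exact_mod_cast this
    omega
  have hlast : w.getVert w.length = w.getVert 0 := by
    rw [w.getVert_length, w.getVert_zero]
  rcases hlen with hl | hl
  · have e0 := w.adj_getVert_succ (i := 0) (by omega)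
    have e1 := w.adj_getVert_succ (i := 1) (by omega)
    have e2 := w.adj_getVert_succ (i := 2) (by omega)
    rw [hl] at hlast
    rw [show 2 + 1 = 3 from rfl, hlast] at e2
    exact h3 _ _ _ e0 e1 e2
  · have e0 := w.adj_getVert_succ (i := 0) (by omega)
    have e1 := w.adj_getVert_succ (i := 1) (by omega)
    have e2 := w.adj_getVert_succ (i := 2) (by omega)
    have e3 := w.adj_getVert_succ (i := 3) (by omega)
    rw [hl] at hlast
    rw [show 3 + 1 = 4 from rfl, hlast] at e3
    have hne : ∀ i j, i < j → j < 4 → w.getVert i ≠ w.getVert j := by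
      intro i j hij hj heq
      have hinj' := hw.getVert_injOn'
      have := hinj' (x₁ := i) (x₂ := j) (by rw [Set.mem_ofPred_eq]; omega) (by rw [Set.mem_ofPred_eq]; omega) heq
      omega
    exact h4 _ _ _ _ e0 e1 e2 e3 (hne 0 2 (by omega) (by omega)) (hne 1 3 (by omega) (by omega))

theorem girth_six (h3 : No3 G) (h4 : No4 G) (h5 : No5 G) : (6 : ℕ∞) ≤ G.egirth := by
  rw [SimpleGraph.le_egirth]
  intro a w hw
  by_contra hcon
  have h55 : (5 : ℕ∞) ≤ w.length := (SimpleGraph.le_egirth.mp (girth_five h3 h4)) a w hw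
  have hl : w.length = 5 := by
    have h1 : w.length < 6 := by
      have := not_le.mp hcon
      exact_mod_cast this
    have h2 : 5 ≤ w.length := by exact_mod_cast h55
    omega
  have hlast : w.getVert w.length = w.getVert 0 := by
    rw [w.getVert_length, w.getVert_zero]
  have e0 := w.adj_getVert_succ (i := 0) (by omega)
  have e1 := w.adj_getVert_succ (i := 1) (by omega)
  have e2 := w.adj_getVert_succ (i := 2) (by omega)
  have e3 := w.adj_getVert_succ (i := 3) (by omega)
  have e4 := w.adj_getVert_succ (i := 4) (by omega)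
  rw [hl] at hlast
  rw [show 4 + 1 = 5 from rfl, hlast] at e4
  have hne : ∀ i j, i < j → j < 5 → w.getVert i ≠ w.getVert j := by
    intro i j hij hj heq
    have hinj' := hw.getVert_injOn'
    have := hinj' (x₁ := i) (x₂ := j) (by rw [Set.mem_ofPred_eq]; omega) (by rw [Set.mem_ofPred_eq]; omega) heq
    omega
  exact h5 _ _ _ _ _ e0 e1 e2 e3 e4 (hne 0 2 (by omega) (by omega)) (hne 1 3 (by omega) (by omega))
    (hne 2 4 (by omega) (by omega)) (hne 0 3 (by omega) (by omega)).symm
    (hne 1 4 (by omega) (by omega)).symm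

end Girth

end Pool.Agent.Lib.MP_dc87a5_co
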