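import Pool.Agent.Lib.MP_dc87a5_co.Colour

/-!
# The planar graphs of girth five
-/

namespace Pool.Agent.Lib.MP_dc87a5_co
namespace Five

/-- a centre, `s` triples of hubs, `r` isolated vertices -/
abbrev W (s r : ℕ) : Type := Unit ⊕ (Fin s × Fin 3) ⊕ Fin r

def LAdj (s r : ℕ) : W s r → W s r → Prop
  | Sum.inl _, Sum.inr (Sum.inl _) => True
  | Sum.inr (Sum.inl _), Sum.inl _ => True
  | _, _ => False

/-- the centre is joined to all hubs -/
def light (s r : ℕ) : SimpleGraph (W s r) where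
  Adj := LAdj s r
  symm := by
    constructor
    rintro (a | a | a) (b | b | b) h <;> exact h
  loopless := by
    constructor
    rintro (a | a | a) h <;> exact h

/-- the ends of the three bundles of a triple -/
def ix : Fin 3 → Bool → Fin 3
  | 0, false => 0
  | 0, true => 1
  | 1, false => 1
  | 1, true => 2
  | 2, false => 0
  | 2, true => 2

def en (s r : ℕ) (x : Fin s × Fin 3) (β : Bool) : W s r := Sum.inr (Sum.inl (x.1, ix x.2 β))

abbrev G (s r m : ℕ) : SimpleGraph (EV (W s r) (Fin s × Fin 3) m) :=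
  expand (light s r) (en s r) m

theorem ix_ne : ∀ k β, ix k β ≠ ix k (!β) := by decide

theorem en_ne (s r : ℕ) (x : Fin s × Fin 3) (β : Bool) : en s r x β ≠ en s r x (!β) := by
  intro h
  have h1 := Sum.inl_injective (Sum.inr_injective h)
  exact ix_ne _ _ (congrArg Prod.snd h1)

theorem no3 (s r m : ℕ) : No3 (G s r m) := by
  apply no3_expand _ (en_ne s r)
  rintro (a | a | a) (b | b | b) (c | c | c) h1 h2 h3 <;>
    first | exact h1 | exact h2 | exact h3

theorem no4 (s r m : ℕ) : No4 (G s r m) := by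
  apply no4_expand
  · rintro (a | a | a) (b | b | b) (c | c | c) (d | d | d) h1 h2 h3 h4 n1 n2 <;>
      first | exact h1 | exact h2 | exact h3 | exact h4 | exact n1 rfl | exact n2 rfl
  · intro e β h
    exact h

/-! planarity -/

def key (s r m : ℕ) : EV (W s r) (Fin s × Fin 3) m → ℕ × ℕ × ℕ
  | Sum.inl (Sum.inl _) => (0, 0, 0)
  | Sum.inl (Sum.inr (Sum.inl x)) => (1 + x.1, 2 * x.2, 0)
  | Sum.inl (Sum.inr (Sum.inr j)) => (1 + s, j, 0)
  | Sum.inr (x, j, β) => (1 + x.1, 2 * x.2 + 1, 2 * j + β.toNat)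

theorem key_inj (s r m : ℕ) : Function.Injective (key s r m) := by
  rintro ((⟨⟩ | ⟨i, k⟩ | j) | ⟨⟨i, k⟩, j, β⟩) ((⟨⟩ | ⟨i', k'⟩ | j') | ⟨⟨i', k'⟩, j', β'⟩) h <;>
    simp only [key, Prod.mk.injEq] at h
  · rfl
  · omega
  · omega
  · omega
  · omega
  · have h1 : i = i' := Fin.ext (by omega)
    have h2 : k = k' := Fin.ext (by omega)
    rw [h1, h2]
  · exfalso
    have := i.2
    omega
  · omega
  · omega
  · exfalso
    have := i'.2
    omega
  · have h1 : j = j' := Fin.ext (by omega)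
    rw [h1]
  · exfalso
    have := i'.2
    omega
  · omega
  · omega
  · exfalso
    have := i.2
    omega
  · have hb : β = β' := by
      cases β <;> cases β' <;> simp only [Bool.toNat_false, Bool.toNat_true] at h <;>
        first | rfl | omega
    subst hb
    have h1 : i = i' := Fin.ext (by omega)
    have h2 : k = k' := Fin.ext (by omega)
    have h3 : j = j' := Fin.ext (by omega)
    rw [h1, h2, h3]

def Low (a b : ℕ × ℕ × ℕ) : Prop :=
  (∃ i k, k < 3 ∧ a = (0, 0, 0) ∧ b = (1 + i, 2 * k, 0)) ∨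
  (∃ i k j, k < 2 ∧ a = (1 + i, 2 * k + 1, 2 * j + 1) ∧ b = (1 + i, 2 * k + 2, 0)) ∨
  (∃ i j, a = (1 + i, 4, 0) ∧ b = (1 + i, 5, 2 * j + 1))

def Up (a b : ℕ × ℕ × ℕ) : Prop :=
  (∃ i j, a = (1 + i, 0, 0) ∧ b = (1 + i, 1, 2 * j)) ∨
  (∃ i j, a = (1 + i, 2, 0) ∧ b = (1 + i, 3, 2 * j)) ∨
  (∃ i j, a = (1 + i, 0, 0) ∧ b = (1 + i, 5, 2 * j)) ∨
  (∃ i k j, a = (1 + i, 2 * k + 1, 2 * j) ∧ b = (1 + i, 2 * k + 1, 2 * j + 1))

theorem planar (s r m : ℕ) : Planar (G s r m) := by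
  refine planar_of_arcs (G s r m) (key s r m) (key_inj s r m) Low Up ?_ ?_ ?_ ?_ ?_
  · rintro a b (⟨i, k, hk, rfl, rfl⟩ | ⟨i, k, j, hk, rfl, rfl⟩ | ⟨i, j, rfl, rfl⟩) <;>
      (unfold lt3; dsimp only; omega)
  · rintro a b (⟨i, j, rfl, rfl⟩ | ⟨i, j, rfl, rfl⟩ | ⟨i, j, rfl, rfl⟩ | ⟨i, k, j, rfl, rfl⟩) <;>
      (unfold lt3; dsimp only; omega)
  · -- the edges
    have hlr : ∀ (a : W s r) (x : Fin s × Fin 3) (j : Fin m) (β : Bool),
        (G s r m).Adj (Sum.inl a) (Sum.inr (x, j, β)) →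
        Low (key s r m (Sum.inl a)) (key s r m (Sum.inr (x, j, β))) ∨
        Low (key s r m (Sum.inr (x, j, β))) (key s r m (Sum.inl a)) ∨
        Up (key s r m (Sum.inl a)) (key s r m (Sum.inr (x, j, β))) ∨
        Up (key s r m (Sum.inr (x, j, β))) (key s r m (Sum.inl a)) := by
      intro a ⟨i, k⟩ j β h
      rw [ex_lr] at h
      subst h
      rcases β with _ | _
      · right; right; left
        fin_cases k
        · exact Or.inl ⟨i, j, rfl, rfl⟩
        · exact Or.inr (Or.inl ⟨i, j, rfl, rfl⟩)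
        · exact Or.inr (Or.inr (Or.inl ⟨i, j, rfl, rfl⟩))
      · fin_cases k
        · right; left
          exact Or.inr (Or.inl ⟨i, 0, j, by omega, rfl, rfl⟩)
        · right; left
          exact Or.inr (Or.inl ⟨i, 1, j, by omega, rfl, rfl⟩)
        · left
          exact Or.inr (Or.inr ⟨i, j, rfl, rfl⟩)
    rintro ((⟨⟩ | ⟨i, k⟩ | j) | ⟨⟨i, k⟩, j, β⟩) ((⟨⟩ | ⟨i', k'⟩ | j') | ⟨⟨i', k'⟩, j', β'⟩) h
    · exact h.elim
    · left; left
      exact ⟨i', k', k'.2, rfl, rfl⟩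
    · exact h.elim
    · exact hlr _ _ _ _ h
    · right; left; left
      exact ⟨i, k, k.2, rfl, rfl⟩
    · exact h.elim
    · exact h.elim
    · exact hlr _ _ _ _ h
    · exact h.elim
    · exact h.elim
    · exact h.elim
    · exact hlr _ _ _ _ h
    · have := hlr _ _ _ _ h.symm
      tauto
    · have := hlr _ _ _ _ h.symm
      tauto
    · have := hlr _ _ _ _ h.symm
      tauto
    · obtain ⟨h1, h2, h3⟩ := ex_rr.mp h
      have h4 : i = i' := congrArg Prod.fst h1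
      have h5 : k = k' := congrArg Prod.snd h1
      subst h4 h5 h2
      right; right
      rcases β with _ | _ <;> rcases β' with _ | _
      · exact absurd rfl h3
      · left; right; right; right
        exact ⟨i, k, j, rfl, rfl⟩
      · right; right; right; right
        exact ⟨i, k, j, rfl, rfl⟩
      · exact absurd rfl h3
  · rintro a b a' b' (⟨i, k, hk, rfl, rfl⟩ | ⟨i, k, j, hk, rfl, rfl⟩ | ⟨i, j, rfl, rfl⟩)
      (⟨i', k', hk', rfl, rfl⟩ | ⟨i', k', j', hk', rfl, rfl⟩ | ⟨i', j', rfl, rfl⟩) h1 h2 h3 <;>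
      (unfold lt3 at h1 h2 h3; dsimp only at h1 h2 h3; omega)
  · rintro a b a' b' (⟨i, j, rfl, rfl⟩ | ⟨i, j, rfl, rfl⟩ | ⟨i, j, rfl, rfl⟩ | ⟨i, k, j, rfl, rfl⟩)
      (⟨i', j', rfl, rfl⟩ | ⟨i', j', rfl, rfl⟩ | ⟨i', j', rfl, rfl⟩ | ⟨i', k', j', rfl, rfl⟩)
      h1 h2 h3 <;> (unfold lt3 at h1 h2 h3; dsimp only at h1 h2 h3; omega)

/-- no `(2, c)`-colouring -/
theorem not_weak {s r m c : ℕ} (hs : c < s) (hm : 2 * c < m)
    (f : EV (W s r) (Fin s × Fin 3) m → Fin 2 ⊕ Fin c) : ¬ Weak (G s r m) c f := by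
  intro h
  -- some triple without a vertex of a distance-2 class
  have hgood : ∃ i : Fin s, ∀ k : Fin 3, ∀ j, f (Sum.inl (Sum.inr (Sum.inl (i, k)))) ≠ Sum.inr j := by
    by_contra hcon
    push Not at hcon
    choose k hk using hcon
    have := h.few (n := s) (Sum.inl (Sum.inl ()))
      (fun i => Sum.inl (Sum.inr (Sum.inl (i, k i)))) (by
        intro i i' hi
        have := Sum.inl_injective (Sum.inr_injective (Sum.inl_injective hi))
        exact congrArg Prod.fst this) (fun i => trivial) hk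
    omega
  obtain ⟨i, hi⟩ := hgood
  have hcol : ∀ k : Fin 3, ∃ a : Fin 2, f (Sum.inl (Sum.inr (Sum.inl (i, k)))) = Sum.inl a := by
    intro k
    rcases hx : f (Sum.inl (Sum.inr (Sum.inl (i, k)))) with a | a
    · exact ⟨a, rfl⟩
    · exact absurd hx (hi k a)
  choose a ha using hcol
  have h01 : a 0 ≠ a 1 := h.heavy hm (i, 0) (ha 0) (ha 1)
  have h12 : a 1 ≠ a 2 := h.heavy hm (i, 1) (ha 1) (ha 2)
  have h02 : a 0 ≠ a 2 := h.heavy hm (i, 2) (ha 0) (ha 2)
  exact fin2_three h01 h12 h02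

/-- The lower bound for girth five. -/
theorem lt_ex5 (c n : ℕ) (hn : 1 + 3 * (c + 1) + 6 * ((c + 1) * (2 * c + 1)) ≤ n) :
    c < ex 2 5 n := by
  obtain ⟨r, rfl⟩ := Nat.exists_eq_add_of_le hn
  have hcard : Fintype.card (EV (W (c + 1) r) (Fin (c + 1) × Fin 3) (2 * c + 1)) =
      1 + 3 * (c + 1) + 6 * ((c + 1) * (2 * c + 1)) + r := by
    simp only [Fintype.card_sum, Fintype.card_prod, Fintype.card_fin, Fintype.card_unit,
      Fintype.card_bool]
    ring
  have σ : Fin (1 + 3 * (c + 1) + 6 * ((c + 1) * (2 * c + 1)) + r) ≃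
      EV (W (c + 1) r) (Fin (c + 1) × Fin 3) (2 * c + 1) :=
    (Fintype.equivFinOfCardEq hcard).symm
  refine lt_ex (G (c + 1) r (2 * c + 1)) σ (planar _ _ _) ?_
    (fun f => not_weak (by omega) (by omega) f)
  exact girth_five ((no3 _ _ _).comap σ) ((no4 _ _ _).comap σ)

end Five
end Pool.Agent.Lib.MP_dc87a5_co
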